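import Mathlib
import Pool.Agent.Lib.MP_11b949_pr.Ex

set_option autoImplicit false

open MeasureTheory

namespace Pool.Agent.Results.MP_11b949_pr.Dichotomy

open Pool.Agent.Lib.MP_11b949_pr

theorem result (s : ℝ) (hs : 0 < s) :
    (∀ (Ω : Type) [MeasurableSpace Ω] (P : Measure Ω) (η : ℕ → Ω → ℝ), IsDisorder P η →
      (∀ lam, 0 ≤ lam → lam < critLam P η s → critCurve P η lam s < ⊤) ∧
      (∀ lam, critLam P η s < lam → critCurve P η lam s = ⊤) ∧
      ENNReal.ofReal (critLam P η s) ≤ momLam P η s ∧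
      (ENNReal.ofReal (critLam P η s) < momLam P η s →
        0 < critLam P η s ∧ critCurve P η (critLam P η s) s = ⊤)) ∧
    ∀ l : ℝ, 0 < l → l < Real.log 2 →
      (∃ (Ω : Type) (_ : MeasurableSpace Ω) (P : Measure Ω) (η : ℕ → Ω → ℝ),
        IsDisorder P η ∧ MemLp (η 0) 2 P ∧ critLam P η s = l ∧
          momLam P η s = ENNReal.ofReal l ∧ critCurve P η (critLam P η s) s < ⊤) ∧
      (∃ (Ω : Type) (_ : MeasurableSpace Ω) (P : Measure Ω) (η : ℕ → Ω → ℝ),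
        IsDisorder P η ∧ MemLp (η 0) 2 P ∧ critLam P η s = l ∧
          momLam P η s = ENNReal.ofReal l ∧ critCurve P η (critLam P η s) s = ⊤) := by
  refine ⟨fun Ω _ P η H => ⟨below η s, H.above s, H.le_momLam hs, H.endpoint'⟩,
    fun l h0 h1 => ?_⟩
  obtain ⟨Ω, m, P, ⟨η, k1, k2, k3, k4, k5⟩, η', j1, j2, j3, j4, j5⟩ := examples s l hs h0 h1
  exact ⟨⟨Ω, m, P, η, k1, k2, k3, k4, k3.symm ▸ k5⟩, Ω, m, P, η', j1, j2, j3, j4, j3.symm ▸ j5⟩

end Pool.Agent.Results.MP_11b949_pr.Dichotomy
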